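import Pool.Agent.L0h21.ME.U5
import Pool.Agent.TH192.DT.TopZ

set_option autoImplicit false

/-! # The twisted monodromy conjecture for divisors with crossing tangent cones, dimension at least four

Let `F = c ∏_j f_j ^ (m_j)` be a polynomial in `n ≥ 4` variables, and let `P_i` be points of `ℂ ^ n` at
which the tangent cones of the hypersurfaces `f_j = 0` form a divisor with simple normal crossings in
`ℙ ^ (n-1)` (`HasCrossingCones`): if `d_ij` is the multiplicity of `f_j` at `P_i` (zero, if the
hypersurface does not contain `P_i`), the homogeneous component of degree `d_ij` of `f_j(P_i + x)` is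
`c_ij ∏_{π k = j} g_k`, and all the `g_k` are equations of smooth hypersurfaces which cross normally.
Let `N_i = ∑_j m_j d_ij`.

The resolution. Assume that the divisor of `F` has normal crossings outside of the `P_i`, and that the
component of degree `d_ij + 1` of `f_j(P_i + x)` crosses normally with the `g_k` at the singular points
of the tangent cone of `f_j` at `P_i`. (Since the singular locus of the tangent cone has dimension
`n - 3 ≥ 1`, it must have zeros there, so these are not the superisolated singularities of Luengo if
the tangent cone is reducible; but this is the general case for given tangent cones.) Blow up `P_i`,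
with the exceptional divisor `t = 0`. At a point where `r ≥ 2` components of the tangent cone of `f_j`
meet, the total transform is given by `t ^ N (u_1 ⋯ u_r + t φ) ^ m w_1 ^ (m_1) ⋯`, with `N = N_i`,
`m = m_j`, where `φ` is a unit or a further coordinate. Blow up the components `u_k = t = 0` of the
tangent cones, one after the other: with `t = t' u_1` this is
`u_1 ^ (N + m) t' ^ N (u_2 ⋯ u_r + t' φ) ^ m ⋯`, and with `u_1 = u_1' t` it is
`t ^ (N + m) (u_1' u_2 ⋯ u_r + φ) ^ m ⋯`, which has normal crossings. So this is an embedded
resolution, and the data of the components of the total transform are: `(N_i, n)`; `(N_i + m_j, n + 1)`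
for the `f_j` with a singular tangent cone at `P_i`; and `(μ, 1)` for the components of `F` (if a
component intersects itself, one has to blow up further centres, with the data `(a μ, a)`). Hence for
every `e ≥ 1` the twisted topological zeta function of `F` is the sum
`∑_I χ_I ∏_{k ∈ I} 1 / (N_k s + ν_k)` (`topZ`) with integers `χ_I` (Euler characteristics of strata, or
zero). If the `g_k` cross normally also at the origin of `ℂ ^ n`, that is, if they are (up to constants)
independent linear forms, then `F` is nondegenerate with respect to its Newton polyhedron at `P_i`, in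
the coordinates given by these forms, the face of the weights `(1, …, 1)` is a vertex, and the data
`(N_i, n)` do not contribute.

If the tangent cone of `f_j` at `P_i` has at least `n - 1` components, then some `n - 1` of them meet
at a point `y` of `ℙ ^ (n-1)`. No further `g_k` vanishes at `y`, and by the assumption (and Euler's
formula: the `n` gradients would be orthogonal to `y`) the component of degree `d_ij + 1` does not
vanish at `y`; so `IsDeepPoint` holds. Hence the theorem proves the twisted monodromy conjecture, in
the strong form, with roots of the Bernstein-Sato polynomial, for these polynomials `F` if each one of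
the tangent cones of the `f_j` at the `P_i` is smooth or has at least `n - 1` components. (If
`N_i = n m_j`, the data `(N_i + m_j, n + 1) = ((n + 1) m_j, n + 1)` are of the type `(a μ, a)`, because
the tangent cones are reduced, so the components of `f_j` through `P_i` have the multiplicity `m_j`.)

The proof. For the data `(N_i, n)` one uses the initial form `c ∏_k g_k ^ (m_(π k))` and the exactness
of the complex of the differential forms relative to a divisor with normal crossings. At a deep point
there are linear coordinates with `y = (0, …, 0, 1)` such that, for the weights `(n, …, n, n - 1)`, the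
initial form of `F` is `G = c' z ^ a (x_1 ⋯ x_(n-1) + z ^ n) ^ m`, of the degree `(n - 1) (a + n m)`,
`a + n m = N_i + m_j`. Its divisor does not have normal crossings outside of the origin. One writes
down period functionals of `G` (`Ph`): they vanish on the monomials `x ^ μ z ^ l` whose exponents `μ_v`
are not all equal, or which do not have the right degree, and the value at `(x_1 ⋯ x_(n-1)) ^ k z ^ l`
is `(-1) ^ k k! / ∏_{j ≤ k} (t + 1 + j)`, `t = m (e0 - p)`, which is the integral of
`u ^ k (u + 1) ^ t du` from zero to infinity; here `e0 = - (n + 1) / (N_i + m_j)`. These values are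
defined, since `m e0` is not an integer for `N_i ≠ n m_j`. This gives a period of `F` with the exponent
`e0`, hence a root of the Bernstein-Sato polynomial. -/

namespace Pool.Agent.Results.MP_b22d1f_ag.CrossingConesHigherDim

open MvPolynomial Pool.Agent.H628R4.TP Pool.Agent.TH192.DT Pool.Agent.L0h21.MD Pool.Agent.L0h21.RW
open Pool.Agent.L0h21.ME (HasCrossingCones IsDeepPoint)

/-- **The twisted monodromy conjecture for divisors with crossing tangent cones, dimension at least
four.** Let `F = c ∏_j f_j ^ (m_j)`, `c ≠ 0`, `m_j ≥ 1`, with polynomials `f_j` in `n ≥ 4` variables,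
and let `P i`, `i ∈ ι`, be points at which the `f_j` have the multiplicities `d i j` and tangent cones,
with the factors `g i k`, which cross normally (`HasCrossingCones`). Let `κ` be a finite set, and for
`k ∈ κ` let `(N k, ν k)` be
* `(a μ, a)`, where `a > 0` and `μ` is the multiplicity of an irreducible component of the divisor of
  `F`,
* or `(∑_j m_j d_ij, n)` for some `i`, if the `g i k` do not cross normally at the origin,
* or `(∑_l m_l d_il + m_j, n + 1)` for some `i` and `j` such that `n - 1` components of the tangent
  cone of `f_j` at `P i` meet at a point at which no other `g i k` and not the component of degree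
  `d_ij + 1` of `f_j (P i + x)` vanishes (`IsDeepPoint`), and `∑_l m_l d_il ≠ n m_j`.
Then, for arbitrary integers `χ_I`, every pole `s₀` of `∑_I χ_I ∏_{k ∈ I} 1 / (N_k s + ν_k)`, where
`I` runs through the subsets of `κ`, is a root of every polynomial `b` with
`b(s) F ^ s = P(s) F ^ (s + 1)`, in particular of the Bernstein-Sato polynomial of `F`. -/
theorem result {V J ι κ : Type} [Fintype V] [Fintype J] [Fintype κ] (hV : 4 ≤ Fintype.card V)
    (f : J → MvPolynomial V ℂ) (m : J → ℕ) (hm : ∀ j, 0 < m j) (c : ℂ) (hc : c ≠ 0)
    (P : ι → V → ℂ) (d : ι → J → ℕ) (K : ι → Type) [∀ i, Fintype (K i)] (π : ∀ i, K i → J)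
    (g : ∀ i, K i → MvPolynomial V ℂ) (hP : ∀ i, HasCrossingCones f (P i) (d i) (π i) (g i))
    (N ν : κ → ℕ)
    (hN : ∀ k,
      (∃ μ, 0 < ν k ∧ N k = ν k * μ ∧ IsMultiplicity (C c * ∏ j, f j ^ m j) μ) ∨
      (∃ i, ¬ NormalCrossingsAt (g i) 0 ∧ ν k = Fintype.card V ∧ N k = ∑ j, m j * d i j) ∨
      ∃ i j, (∃ y, IsDeepPoint f (P i) (d i) (π i) (g i) j y) ∧
        ∑ l, m l * d i l ≠ Fintype.card V * m j ∧ ν k = Fintype.card V + 1 ∧
        N k = ∑ l, m l * d i l + m j)
    (χ : Finset κ → ℤ) (s₀ : ℂ) (hs₀ : (topZ ν N χ).denom.eval s₀ = 0)
    (b : Polynomial ℂ) (hb : IsBFunction (C c * ∏ j, f j ^ m j) b) : b.eval s₀ = 0 := by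
  classical
  obtain ⟨k, hk, rfl⟩ := pole_topZ ν N χ (fun k => by
    rcases hN k with ⟨-, h, -⟩ | ⟨i, -, h, -⟩ | ⟨i, j, -, -, h, -⟩ <;> omega) s₀ hs₀
  rcases hN k with ⟨μ, h0, h1, h2⟩ | ⟨i, h0, h1, h2⟩ | ⟨i, j, ⟨y, hy⟩, h0, h1, h2⟩
  · have hμ : 0 < μ := Nat.pos_of_ne_zero fun h => by rw [h, mul_zero] at h1; omega
    have h5 : (-((ν k : ℕ) : ℂ) / ((N k : ℕ) : ℂ)) = -1 / (μ : ℂ) := by
      have h6 : (μ : ℂ) ≠ 0 := by exact_mod_cast hμ.ne'
      have h7 : ((ν k : ℕ) : ℂ) ≠ 0 := by exact_mod_cast h0.ne'
      rw [h1]
      push_cast
      field_simp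
    rw [h5]
    exact root_mult _ _ hμ h2 b hb
  · have h3 := Pool.Agent.L0h21.ME.cross_oneV (by omega) f (P i) (d i) (π i) (g i) (hP i) m hm c hc
      h0
    rw [← h2] at h3
    obtain ⟨b', rfl, h4⟩ := root_div _ _ _ h3 b hb
    rw [h1, Polynomial.eval_mul, h4, mul_zero]
  · have h3 := Pool.Agent.L0h21.ME.per_two (by omega) f (P i) (d i) (π i) (g i) (hP i) m hm c hc j y
      hy h0
    rw [← h2, ← h1] at h3
    obtain ⟨b', rfl, h4⟩ := Pool.Agent.N138.SV.A1.t _ _ (div_ne_zero (neg_ne_zero.2 (by
      rw [h1]
      exact Nat.cast_ne_zero.2 (Nat.succ_ne_zero _))) (by exact_mod_cast hk.ne')) h3 b hb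
    rw [Polynomial.eval_mul, h4, mul_zero]

end Pool.Agent.Results.MP_b22d1f_ag.CrossingConesHigherDim
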