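import Pool.Agent.L0h21.ME.T5
import Pool.Agent.TH192.DT.TopZ

set_option autoImplicit false

/-! # The twisted monodromy conjecture for surfaces whose tangent cones cross normally

Let `F = c ∏_j f_j ^ (m_j)` be a polynomial in three variables, and let `P_i` be points of `ℂ ^ 3` at
which the tangent cones of the surfaces `f_j = 0` form a curve with simple normal crossings in
`ℙ ^ 2` (`HasTangentCones`): if `d_ij` is the multiplicity of `f_j` at `P_i` (zero, if the surface
does not contain `P_i`), the homogeneous component of degree `d_ij` of `f_j(P_i + x)` is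
`c_ij ∏_{π k = j} g_k`, and all the `g_k` are equations of smooth curves which cross normally. The
number and the degrees of these curves are arbitrary, and there is no condition on the terms of higher
degree: the surface `f_j = 0` may be singular along curves, and after the blow-up of `P_i` it may have
singularities at the singular points of its tangent cone. Let `N_i = ∑_j m_j d_ij`.

The resolution. Assume that the divisor of `F` has normal crossings outside of the `P_i`. Blow up the
`P_i`, and let `t = 0` be an exceptional plane `ℙ ^ 2`; its data are `(N_i, 3)`. Outside of the singular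
points of the tangent cones of the single surfaces `f_j`, the total transform has normal crossings. At
a singular point of the tangent cone of `f_j` it is given by `t ^ N (u v + δ(t)) ^ m`, `N = N_i`,
`m = m_j`, in suitable analytic coordinates, since the tangent cone has a node there (Morse lemma with
the parameter `t`; the other surfaces do not pass through the point). If `δ = 0`, it has normal
crossings. If not, let `k ≥ 1` be the order of `δ`, so the strict transform of `f_j = 0` has a
singularity of type `A_(k-1)`. A toric resolution of `t ^ N (u v + t ^ k) ^ m`, with the exceptional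
divisors `E_(p,q)`, `p + q ≤ k`, given by the weights `(p, q, 1)` for `u, v, t`, whose data are
`(N + (p + q) m, 3 + p + q)`, shows that the point contributes to the twisted topological zeta function
`Z^(e)`, with `A = N + k m` and `B = 3 + k`,
* `k ^ 2 / ((N s + 3) (A s + B) ^ 2) + k / ((m s + 1) (A s + B) ^ 2)` if `e` divides `N` and `m`,
* and `1 / (A s + B)` if `e` divides `A`
(for `N = m = 0` the sum is `1 / 3`). So only the data `(A, B)` are new. If the `g_k` cross normally
also at the origin of `ℂ ^ 3` (then they are, up to constants, at most three independent linear forms),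
then `F` has normal crossings at `P_i`; or it is `z ^ m' (x y + δ(z)) ^ m`, `m' ≥ 0`, up to a unit, and
the same computation, with `(N, 3)` replaced by `(m', 1)` and with the order `k + 2` of `δ`, gives the
same data `(m' + (k + 2) m, 3 + k) = (N_i + k m, 3 + k)`, but not `(N_i, 3)`; or all the three forms
belong to one `f_j`, and `(N_i, 3) = (3 m_j, 3)`. Altogether, for every `e ≥ 1` the twisted topological
zeta function of `F` is a sum `∑_I χ_I ∏_{k ∈ I} 1 / (N_k s + ν_k)` (`topZ`) with integers `χ_I` and the
following data `(N_k, ν_k)`: `(a μ, a)`, where `μ` is the multiplicity of an irreducible component of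
the divisor of `F` (`a > 1` occurs if components intersect themselves, or in the last case above);
`(N_i, 3)`, if the `g_k` do not cross normally at the origin; and `(N_i + k m_j, 3 + k)`.

The theorem: for arbitrary integers `χ_I`, every pole of such a sum is a root of the Bernstein-Sato
polynomial of `F`. By the theorem of Malgrange and Kashiwara, `exp(2 π i s₀)` is then an eigenvalue of
the monodromy of `F` at some point. The case where the component of degree `d_ij + 1` of `f_j(P_i + x)`
does not vanish at the singular points of the tangent cone (`k = 1`) is the case of superisolated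
singularities (Luengo), a classical test ground of the monodromy conjecture.

The proof. Let `w` be weights, in suitable coordinates, such that the initial form of `F` is
`c ∏_j h_j ^ (a_j)` with normal crossings exactly outside of the origin (`IsCrossingDivisor`). The
complex of the differential forms relative to a normal crossing divisor is exact in the degrees below
the number of the variables; this gives a period of the initial form with the exponent
`|w| / deg_w`, which extends to a period of `F`, so `- |w| / deg_w` is a root of the Bernstein-Sato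
polynomial. For `w = (1, 1, 1)` this is `-3 / N_i`. At a node of the tangent cone of `f_j` with the
tangent lines `x` and `y` one takes the coordinates given by the arc in `IsNodeOfType` and the weights
`(k + 2, k + 2, 2)`. Then the initial form of `F` is `z ^ a (κ x y + δ z ^ (k + 2)) ^ (m_j)`: it has the
degree `2 (N_i + k m_j)` and normal crossings outside of the origin, and the quotient is
`(2 k + 6) / (2 (N_i + k m_j)) = (3 + k) / (N_i + k m_j)`. -/

namespace Pool.Agent.Results.MP_b22d1f_ag.CrossingTangentCones

open MvPolynomial Pool.Agent.H628R4.TP Pool.Agent.TH192.DT Pool.Agent.L0h21.MD Pool.Agent.L0h21.RW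
open Pool.Agent.L0h21.ME (HasTangentCones IsNodeOfType)

/-- **The twisted monodromy conjecture for surfaces whose tangent cones cross normally.** Let
`F = c ∏_j f_j ^ (m_j)`, `c ≠ 0`, `m_j ≥ 1`, with polynomials `f_j` in three variables, and let `P i`,
`i ∈ ι`, be points at which the `f_j` have the multiplicities `d i j` and tangent cones, with the
factors `g i k`, which cross normally (`HasTangentCones`). Let `κ` be a finite set, and for `k ∈ κ` let
`(N k, ν k)` be
* `(a μ, a)`, where `a > 0` and `μ` is the multiplicity of an irreducible component of the divisor of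
  `F`,
* or `(∑_j m_j d_ij, 3)` for some `i`, if the `g i k` do not cross normally at the origin,
* or `(∑_l m_l d_il + q m_j, 3 + q)` for some `i`, `j` and `q ≥ 1` such that the tangent cone of `f_j`
  at `P i` has a singular point at which the strict transform of the surface `f_j = 0` has a
  singularity of type `A_(q-1)` (`IsNodeOfType`).
Then, for arbitrary integers `χ_I`, every pole `s₀` of `∑_I χ_I ∏_{k ∈ I} 1 / (N_k s + ν_k)`, where
`I` runs through the subsets of `κ`, is a root of every polynomial `b` with
`b(s) F ^ s = P(s) F ^ (s + 1)`, in particular of the Bernstein-Sato polynomial of `F`. -/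
theorem result {J ι κ : Type} [Fintype J] [Fintype κ] (f : J → MvPolynomial (Fin 3) ℂ) (m : J → ℕ)
    (hm : ∀ j, 0 < m j) (c : ℂ) (hc : c ≠ 0) (P : ι → Fin 3 → ℂ) (d : ι → J → ℕ)
    (K : ι → Type) [∀ i, Fintype (K i)] (π : ∀ i, K i → J) (g : ∀ i, K i → MvPolynomial (Fin 3) ℂ)
    (hP : ∀ i, HasTangentCones f (P i) (d i) (π i) (g i)) (N ν : κ → ℕ)
    (hN : ∀ k,
      (∃ μ, 0 < ν k ∧ N k = ν k * μ ∧ IsMultiplicity (C c * ∏ j, f j ^ m j) μ) ∨
      (∃ i, ¬ NormalCrossingsAt (g i) 0 ∧ ν k = 3 ∧ N k = ∑ j, m j * d i j) ∨
      ∃ i j q, (∃ y, IsNodeOfType (f j) (P i) (d i j) y q) ∧ ν k = 3 + q ∧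
        N k = ∑ l, m l * d i l + q * m j)
    (χ : Finset κ → ℤ) (s₀ : ℂ) (hs₀ : (topZ ν N χ).denom.eval s₀ = 0)
    (b : Polynomial ℂ) (hb : IsBFunction (C c * ∏ j, f j ^ m j) b) : b.eval s₀ = 0 := by
  classical
  obtain ⟨k, hk, rfl⟩ := pole_topZ ν N χ (fun k => by
    rcases hN k with ⟨-, h, -⟩ | ⟨i, -, h, -⟩ | ⟨i, j, q, -, h, -⟩ <;> omega) s₀ hs₀
  rcases hN k with ⟨μ, h0, h1, h2⟩ | ⟨i, h0, h1, h2⟩ | ⟨i, j, q, ⟨y, hy⟩, h1, h2⟩
  · have hμ : 0 < μ := Nat.pos_of_ne_zero fun h => by rw [h, mul_zero] at h1; omega
    have h5 : (-((ν k : ℕ) : ℂ) / ((N k : ℕ) : ℂ)) = -1 / (μ : ℂ) := by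
      have h6 : (μ : ℂ) ≠ 0 := by exact_mod_cast hμ.ne'
      have h7 : ((ν k : ℕ) : ℂ) ≠ 0 := by exact_mod_cast h0.ne'
      rw [h1]
      push_cast
      field_simp
    rw [h5]
    exact root_mult _ _ hμ h2 b hb
  · have h3 := Pool.Agent.L0h21.ME.cross_one f (P i) (d i) (π i) (g i) (hP i) m hm c hc h0
    rw [← h2] at h3
    obtain ⟨b', rfl, h4⟩ := root_div _ _ _ h3 b hb
    rw [h1, Polynomial.eval_mul, h4, mul_zero]
  · have h3 := Pool.Agent.L0h21.ME.cross_two f (P i) (d i) (π i) (g i) (hP i) m hm c hc j y q hy
    rw [← h2] at h3
    obtain ⟨b', rfl, h4⟩ := root_div _ _ _ h3 b hb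
    have h5 : (-((ν k : ℕ) : ℂ) / ((N k : ℕ) : ℂ)) =
        -((2 * (q + 3) : ℕ) : ℂ) / ((2 * N k : ℕ) : ℂ) := by
      have h6 : (N k : ℂ) ≠ 0 := by exact_mod_cast hk.ne'
      rw [h1]
      push_cast
      field_simp
      ring
    rw [h5, Polynomial.eval_mul, h4, mul_zero]

end Pool.Agent.Results.MP_b22d1f_ag.CrossingTangentCones
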