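import Pool.Agent.L0h21.SN.Strict
import Pool.Agent.TH192.DT.TopZ

/-! # The twisted monodromy conjecture for multi-cones over normal crossing divisors

Let `f = c * ∏_j f_j ^ (m_j)`, `c ≠ 0`, `m_j ≥ 1`, be a product of powers of complex polynomials
`f_j` in the variables `V`, for which there are disjoint blocks of variables, each with at least two
variables and with positive weights, such that

* every `f_j` is weighted homogeneous, of degree `e_{i,j}`, in the variables of the block `i`, for
  all `i`;
* at a point `P` of `ℂ ^ V`, the gradients of those `f_j` which vanish at `P` are linearly
  independent if and only if no block of coordinates of `P` is zero.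

So the divisor of `f` has simple normal crossings, with arbitrary multiplicities, exactly outside
the union of the coordinate subspaces `L_i` where the block `i` of variables vanishes. The variables
which are in no block are parameters.

The zeta functions. Assume first that all the weights are `1`. Blow up the subspaces `L_i` (they are
transversal to each other). By the two conditions, this is an embedded resolution `Y → ℂ ^ V` of `f`:
the components of the total transform are the exceptional divisors `E_i`, with
`N_i = ∑_j m_j e_{i,j}` and `ν_i` the number of variables in the block, and the components of the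
strict transforms of the `f_j`, with `N = m_j` and `ν = 1`; the components which belong to one `f_j`
are disjoint. Therefore the `e`-th twisted topological zeta function of `f`, for every `e ≥ 1`, and
also the local ones, are of the form `∑_I χ_I ∏_{i ∈ I} 1 / (N_i s + ν_i)` (`topZ`), where `I` runs
through the subsets of `ι ⊕ J`, and the integer `χ_I` is the Euler characteristic of a stratum if
`e` divides `N_i` for all `i ∈ I`, and zero if not. For arbitrary weights the weighted blow-up of the
`L_i` is an embedded resolution with abelian quotient singularities, with `ν_i` the sum of the
weights of the block, and the untwisted topological zeta function is again a sum of this form, where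
the Euler characteristics of the strata are multiplied by the orders of the local groups.

The theorem: for arbitrary integers `χ_I`, every pole of such a sum is a root of the
Bernstein-Sato polynomial of `f`. By the theorem of Malgrange and Kashiwara, `exp(2 π i s₀)` is then
an eigenvalue of the monodromy of `f` at some point.

The singular locus of the reduced divisor is the union of the `L_i`; the transversal types can vary
with the parameters. Examples: products of powers of forms which cross normally outside of the
origin; families of such products with parameters; generic multihomogeneous forms.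

The proof: for the generic values of the variables outside of the block `i`, the complex of the
relative differential forms along the normal crossing divisor is exact in the degrees below the
number of the variables of the block (depth); this is used for a residue in the functional
equation, specialised at `s = -ν_i / N_i`. -/

set_option autoImplicit false

namespace Pool.Agent.Results.MP_b22d1f_ag.MultiConesNormalCrossings

open MvPolynomial Pool.Agent.H628R4.TP Pool.Agent.TH192.DT

/-- The hypersurfaces `{f_j = 0}`, `j : J`, have normal crossings at the point `P` of `ℂ ^ V`: the
gradients at `P` of those `f_j` which vanish at `P` are linearly independent. -/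
def NormalCrossingsAt {V J : Type} (f : J → MvPolynomial V ℂ) (P : V → ℂ) : Prop :=
  LinearIndependent ℂ fun (j : {j : J // eval P (f j) = 0}) (v : V) => eval P (pderiv v (f j.1))

/-- The multiplicities `N` of the components: `∑_j m_j e_{i,j}` for the exceptional divisor of the
block `i`, and `m_j` for the strict transform of `f_j`. -/
def mult {ι J : Type} [Fintype J] (m : J → ℕ) (e : ι → J → ℕ) : ι ⊕ J → ℕ :=
  Sum.elim (fun i => ∑ j, m j * e i j) m

/-- The numbers `ν` of the components: the sum of the weights for the exceptional divisor of the
block `i`, and `1` for the strict transform of `f_j`. -/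
def nu {V ι J : Type} [Fintype V] (w : ι → V → ℕ) : ι ⊕ J → ℕ :=
  Sum.elim (fun i => ∑ v, w i v) fun _ => 1

/-- Let `f = c * ∏_j f_j ^ (m_j)`, with nonconstant `f_j`, `m_j > 0` and `c ≠ 0`. The block `i`
consists of the variables `v` with `0 < w i v`, and `w i v` is the weight of the variable `v`. The
blocks are disjoint, and each one has at least two variables. Assume that all the `f_j` are weighted
homogeneous with respect to all the weights `w i`, and that the `f_j` have normal crossings exactly
at the points `P` none of whose blocks of coordinates is zero. Then, for arbitrary integers `χ_I`,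
every pole `s₀` of `∑_I χ_I ∏_{i ∈ I} 1 / (N_i s + ν_i)`, where `I` runs through the subsets of
`ι ⊕ J`, is a root of every polynomial `b` with `b(s) f ^ s = P(s) f ^ (s + 1)`, in particular of
the Bernstein-Sato polynomial of `f`. -/
theorem result {V J ι : Type} [Fintype V] [Fintype J] [Fintype ι]
    (w : ι → V → ℕ) (hdisj : ∀ v i i', 0 < w i v → 0 < w i' v → i = i')
    (htwo : ∀ i, ∃ v v', v ≠ v' ∧ 0 < w i v ∧ 0 < w i v')
    (f : J → MvPolynomial V ℂ) (hf : ∀ j, (f j).totalDegree ≠ 0) (e : ι → J → ℕ)
    (hhom : ∀ i j, IsWeightedHomogeneous (w i) (f j) (e i j))
    (hsnc : ∀ P : V → ℂ, NormalCrossingsAt f P ↔ ∀ i, ∃ v, 0 < w i v ∧ P v ≠ 0)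
    (m : J → ℕ) (hm : ∀ j, 0 < m j) (c : ℂ) (hc : c ≠ 0) (χ : Finset (ι ⊕ J) → ℤ) (s₀ : ℂ)
    (hs₀ : (topZ (nu w) (mult m e) χ).denom.eval s₀ = 0)
    (b : Polynomial ℂ) (hb : IsBFunction (C c * ∏ j, f j ^ m j) b) : b.eval s₀ = 0 := by
  classical
  have hcard : ∀ i, 2 ≤ Fintype.card (Pool.Agent.L0h21.SN.Pos (w i)) := by
    intro i
    obtain ⟨v, v', h1, h2, h3⟩ := htwo i
    exact Fintype.one_lt_card_iff.mpr ⟨⟨v, h2⟩, ⟨v', h3⟩, fun h => h1 (congrArg Subtype.val h)⟩
  have hb1 := Pool.Agent.L0h21.SN.root_block w hdisj hcard f e hhom m hm c hc hsnc b hb
  have hb2 := Pool.Agent.L0h21.SN.root_comp w hdisj hcard f m hm c hc (fun P => (hsnc P).mpr) b hb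
  obtain ⟨i, hN, rfl⟩ := pole_topZ (nu w) (mult m e) χ (by
    rintro (i | j)
    · obtain ⟨v, v', -, h2, -⟩ := htwo i
      exact lt_of_lt_of_le h2 (Finset.single_le_sum (f := fun v => w i v)
        (fun _ _ => Nat.zero_le _) (Finset.mem_univ v))
    · exact Nat.one_pos) s₀ hs₀
  rcases i with i | j
  · exact (hb1 i).2
  · have := hb2 j (hf j)
    simpa [nu, mult] using this

end Pool.Agent.Results.MP_b22d1f_ag.MultiConesNormalCrossings
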