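import Pool.Agent.L0h17.WT.F
import Pool.Agent.L0h17.WT.G
import Pool.Agent.L0h17.WT.H
import Pool.Agent.L0h72.WT.RES
import Pool.Agent.L0h55.WT.PCR
import Pool.Agent.L0h17.WT.Z

/-!
# Twisted topological zeta functions: weighted divisors, suspensions, products and powers

Let `F` be a polynomial with `F(0) = 0`. We call a pair `(ν, N)` a weighted divisor of `F`
(`HasDivisor`) if `F` becomes, in some formal coordinates at the origin and up to a unit, a
polynomial `G` for which there are weights `w_v ≥ 0`, at least two of them positive, such that the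
initial form of `G` is `c ∏_j g_j ^ (m_j)`, where the `g_j` have normal crossings exactly outside of the
subspace `L` where all variables of positive weight vanish (for generic values of the variables of
weight zero), and `ν = ∑_v w_v`, `N = ∑_j m_j deg(g_j)`. These are the numerical data of the
exceptional divisor of the weighted blow-up of `L`. The `g_j` need not be initial forms of factors
of `F`.

Let `𝓣` be the least class of polynomials (with a point) which contains

* the polynomials `F` at the origin, with a finite set of weighted divisors `(ν_i, N_i)` of `F`, a finite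
  set of formal branches of `F` (prime factors `q_j` in the ring of formal power series) of multiplicity
  `m_j` (`ν = 1`, `N = m_j`), and with
  the zeta functions `Z^(e) = ∑_I χ_{e,I} ∏_{i ∈ I} 1 / (N_i s + ν_i)`, where `I` runs through the
  nonempty sets of these divisors and components with `e ∣ N_i` for all `i ∈ I`, with arbitrary
  integers `χ_{e,I}` for which `Z^(1)(0) = 1`;
* the class `𝓢` of `Pool/Agent/N103/V/SZDefs.lean` (`SusZeta`), which contains all the polynomials in two
  variables and the polynomials `h(x) (f₀(x) + ∑ y_j f_j(x)) ^ a`, `x = (x₁, x₂)`;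
* with `F`, `G` the suspension `z ^ d + G`, `d ≥ 2`, the powers `G ^ k`, the product `F(x) G(y)` in
  disjoint variables, `F` as a function of more variables, and every polynomial whose germ at some
  point becomes the germ of `F` in suitable formal coordinates and up to a unit (so the class is
  closed under formal equivalence at every step of the construction).

The zeta functions. If the weighted divisors and the strict transforms of the branches at the
origin are the components over the origin of an embedded resolution of `F`, or of a weighted one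
with cyclic quotient singularities on the exceptional divisors, then the local twisted topological
zeta functions of `F` at the origin are of the form above: for a resolution, `χ_{e,I}` is the Euler
characteristic of `E_I°` over the origin; for cyclic quotient singularities it is the sum of the
Euler characteristics of the sets of points with a given local group, times the order of the group,
over those groups for which `e` divides the multiplicities at all the lattice points. The condition
`Z^(1)(0) = 1` is known for the local topological zeta function. Such singularities are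

* the points where `F = c ∏_j f_j ^ (m_j)` has normal crossings (no exceptional divisor, `χ_{e,I} = 1`
  for the set `I` of all the components through the point, and `0` otherwise);
* the weighted centres: the initial forms of the `f_j`, for weights `w`, cross normally outside of `L`;
  for instance ordinary multiple points in every dimension (the tangent cones of the components
  cross normally), with arbitrary multiplicities, isolated or not (one exceptional divisor).

Several exceptional divisors, with different weights in different coordinates, can be necessary.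

The zeta functions of suspensions and powers are given by the known formulas (`SZDefs.lean`), those of
`F(x) G(y)` are the products (the product of the two resolutions is a resolution); additional
variables, formal coordinates and units do not change them.

Let `f : X → ℂ` be a function whose germs become members of `𝓣` in suitable formal coordinates, up to a
unit. We prove the monodromy conjecture, in its strong form, for the twisted topological zeta
functions of `f`, local and global: every pole is a root of the (local) Bernstein-Sato polynomial, so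
that `exp(2 π i s₀)` is an eigenvalue of the monodromy of `f` (Malgrange, Kashiwara). By additivity of
the Euler characteristic, the global zeta function is `c + ∑_i χ_i Z_{i,e}(s)` for a finite partition of
`f = 0` in constructible sets `S_i` with the Euler characteristics `χ_i`, such that the local zeta
functions of `f` at the points of `S_i` are the `Z_{i,e}`.

The proof. The functional equation of the (local) Bernstein-Sato polynomial, specialised at `s₀`, says
that a polynomial `H` which does not vanish at the point, times `F ^ s₀`, is in the module which is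
generated by `F ^ (s₀ + 1)` and the derivatives of `F ^ (s₀ + 1)`. For `s₀ = -1 / m_j`, `m_j ≥ 2`, the
functions regular along the prime component are an obstruction; for `s₀ = -1` the sums of functions
with poles along one of two components. For `s₀ = -ν_i / N_i` the complex of the differential forms
relative to a normal crossing divisor is exact, which gives functionals (periods) for the initial
form `G`, and by `∫ H exp(-τ F) = ∑_k (-τ) ^ k / k! ∫ (F - G) ^ k H exp(-τ G)` for `F`, which do not vanish
at `H`. Suspensions and powers are as in `Pool/Agent/N103/V`. For `F(x) G(y)` one restricts to a point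
`y` with `G(y) ≠ 0` and `H(p, y) ≠ 0`. Formal coordinates and units: the module generated over the
formal power series contains `1`, and the completion of the local ring is faithfully flat. -/

set_option autoImplicit false

namespace Pool.Agent.Results.MP_b22d1f_ag.WeightedDivisorGerms

open MvPolynomial
open Pool.Agent.N103.V (SusZeta BecomesAt Fd suspZ sb)
open Pool.Agent.H628R4.TP (IsBFunction)
open Pool.Agent.Y229.RE (trans)
open Pool.Agent.Y229.PS (IsFormalBFunction)
open Pool.Agent.L0h21.SN

/-- The hypersurfaces `{g_j = 0}`, `j : J`, have normal crossings at the point `P` of `ℂ ^ V`: the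
gradients at `P` of those `g_j` which vanish at `P` are linearly independent. -/
def NormalCrossingsAt {V J : Type} (g : J → MvPolynomial V ℂ) (P : V → ℂ) : Prop :=
  LinearIndependent ℂ fun (j : {j : J // eval P (g j) = 0}) (v : V) => eval P (pderiv v (g j.1))

/-- The initial form of `F` for the weights `w` (which may be zero) is `c ∏_j g_j ^ (m_j)`, of degree
`∑_j m_j e_j`, and the `g_j` have normal crossings exactly outside of the subspace where all variables
of positive weight vanish, for the values `y` of the variables of weight zero with `h(y) ≠ 0`. -/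
structure IsWeightedDivisor {V J : Type} [Fintype J] (F : MvPolynomial V ℂ) (w : V → ℕ) (c : ℂ)
    (g : J → MvPolynomial V ℂ) (e m : J → ℕ) (h : MvPolynomial V ℂ) : Prop where
  /-- At least two weights are positive. -/
  two : ∃ v v', v ≠ v' ∧ 0 < w v ∧ 0 < w v'
  /-- `g j` is weighted homogeneous of degree `e j`. -/
  hom : ∀ j, IsWeightedHomogeneous w (g j) (e j)
  /-- The multiplicities are positive. -/
  pos : ∀ j, 0 < m j
  /-- The constant is not zero. -/
  ne_zero : c ≠ 0
  /-- The components of `F` of lower degree vanish. -/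
  low : ∀ a < ∑ j, m j * e j, weightedHomogeneousComponent w a F = 0
  /-- The initial form. -/
  initial : weightedHomogeneousComponent w (∑ j, m j * e j) F = C c * ∏ j, g j ^ m j
  /-- Only variables of weight zero occur in `h`. -/
  vars : ∀ v ∈ h.vars, w v = 0
  /-- `h` is not zero. -/
  ne : h ≠ 0
  /-- The points with normal crossings. -/
  crossing : ∀ y, eval y h ≠ 0 → (NormalCrossingsAt g y ↔ ∃ v, 0 < w v ∧ y v ≠ 0)

/-- `(ν, N)` are the numbers of a weighted divisor of `F` at the origin: in suitable formal coordinates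
at the origin, and up to a unit, `F` becomes a polynomial `G` with a weighted divisor, `ν` is the sum
of the weights and `N` the degree of the initial form. -/
def HasDivisor {n : ℕ} (F : MvPolynomial (Fin n) ℂ) (ν N : ℕ) : Prop :=
  ∃ (V : Type) (_ : Fintype V) (G : MvPolynomial V ℂ) (J : Type) (_ : Fintype J) (w : V → ℕ)
    (c : ℂ) (g : J → MvPolynomial V ℂ) (e m : J → ℕ) (h : MvPolynomial V ℂ),
    BecomesAt (F : MvPowerSeries (Fin n) ℂ) G ∧ IsWeightedDivisor G w c g e m h ∧
    ν = ∑ v, w v ∧ N = ∑ j, m j * e j

/-- `q` is a formal branch of `F` at the origin of multiplicity `m > 0`: a prime factor of `F` in the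
ring of formal power series. -/
structure IsComponent {n : ℕ} (F : MvPolynomial (Fin n) ℂ) (q : MvPowerSeries (Fin n) ℂ) (m : ℕ) :
    Prop where
  prime : Prime q
  pos : 0 < m
  mult : ∃ r, (F : MvPowerSeries (Fin n) ℂ) = q ^ m * r ∧ ¬ q ∣ r

open Classical in
/-- `∑_I χ_I ∏_{i ∈ I} 1 / (N_i s + ν_i)`, where `I` runs through the nonempty sets of components with
`e ∣ N_i` for all `i ∈ I`. -/
noncomputable def strata {T : Type} [Fintype T] (ν N : T → ℕ) (e : ℕ) (χ : Finset T → ℤ) :
    RatFunc ℂ :=
  ∑ I ∈ Finset.univ.filter (fun I : Finset T => I.Nonempty ∧ ∀ i ∈ I, e ∣ N i),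
    (χ I : RatFunc ℂ) * ∏ i ∈ I, 1 / ((ν i : RatFunc ℂ) + (N i : RatFunc ℂ) * RatFunc.X)

open Classical in
/-- The value `∑_I χ_I ∏_{i ∈ I} 1 / ν_i` at `s = 0`, for `e = 1`. -/
noncomputable def value {T : Type} [Fintype T] (ν : T → ℕ) (χ : Finset T → ℤ) : ℂ :=
  ∑ I ∈ Finset.univ.filter (fun I : Finset T => I.Nonempty), (χ I : ℂ) * ∏ i ∈ I, 1 / (ν i : ℂ)

/-- `ZetaGerm F p Z`: the polynomial `F` vanishes at the point `p`, and `Z e`, `e ≥ 1`, are its twisted
local topological zeta functions at `p`. The rules are

* `base`: the class `SusZeta`; in particular, all the polynomials in two variables;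
* `divisors`: `p = 0`, and `Z e = ∑_I χ_{e,I} ∏_{i ∈ I} 1 / (N_i s + ν_i)`, where `I` runs through the
  nonempty sets of weighted divisors and formal branches (`ν = 1`, `N = m`) with `e ∣ N_i` for all
  `i ∈ I`, and `Z 1` has the value `1` at `s = 0`;
* `susp`: `F = z ^ d + G`, `d ≥ 2`, and `z = 0` at the point; `pow`: `F = G ^ k`, `k ≥ 1`;
* `prod`: `F(x) G(y)`, in disjoint variables;
* `vars`: renaming of the variables, and additional variables;
* `formal`: formal coordinates and units: the germ `F'(p + x)` becomes the germ `F(q + x)`. -/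
inductive ZetaGerm : (σ : Type) → MvPolynomial σ ℂ → (σ → ℂ) → (ℕ → RatFunc ℂ) → Prop
  | base {σ : Type} (F : MvPolynomial σ ℂ) (p : σ → ℂ) (Z : ℕ → RatFunc ℂ)
      (hF : SusZeta σ F p Z) : ZetaGerm σ F p Z
  | divisors {n : ℕ} (F : MvPolynomial (Fin n) ℂ) (hF : F ≠ 0) (h0 : eval 0 F = 0)
      {E S : Type} [Fintype E] [Fintype S] (ν N : E → ℕ) (hE : ∀ i, HasDivisor F (ν i) (N i))
      (q : S → MvPowerSeries (Fin n) ℂ) (m : S → ℕ) (hq : ∀ j, IsComponent F (q j) (m j))
      (hne : ∀ i j, i ≠ j → ¬ q i ∣ q j) (χ : ℕ → Finset (E ⊕ S) → ℤ)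
      (hχ : value (Sum.elim ν fun _ => 1) (χ 1) = 1) :
      ZetaGerm (Fin n) F 0 (fun k => strata (Sum.elim ν fun _ => 1) (Sum.elim N m) k (χ k))
  | susp {σ : Type} (d : ℕ) (hd : 2 ≤ d) (G : MvPolynomial σ ℂ) (p : σ → ℂ) (Z : ℕ → RatFunc ℂ)
      (hG : ZetaGerm σ G p Z) :
      ZetaGerm (Option σ) (Fd d G) (fun i => i.elim 0 p) (suspZ d Z)
  | pow {σ : Type} (k : ℕ) (hk : 1 ≤ k) (G : MvPolynomial σ ℂ) (p : σ → ℂ) (Z : ℕ → RatFunc ℂ)
      (hG : ZetaGerm σ G p Z) :
      ZetaGerm σ (G ^ k) p (fun e => sb k 0 (Z (e / Nat.gcd e k)))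
  | prod {σ τ : Type} (F : MvPolynomial σ ℂ) (G : MvPolynomial τ ℂ) (p : σ → ℂ) (q : τ → ℂ)
      (Z Z' : ℕ → RatFunc ℂ) (hF : ZetaGerm σ F p Z) (hG : ZetaGerm τ G q Z') :
      ZetaGerm (σ ⊕ τ) (rename Sum.inl F * rename Sum.inr G) (Sum.elim p q)
        (fun e => Z e * Z' e)
  | vars {σ τ : Type} (i : σ → τ) (hi : Function.Injective i) (F : MvPolynomial σ ℂ) (q : τ → ℂ)
      (Z : ℕ → RatFunc ℂ) (hF : ZetaGerm σ F (q ∘ i) Z) : ZetaGerm τ (rename i F) q Z
  | formal {n : ℕ} {σ : Type} (F' : MvPolynomial (Fin n) ℂ) (p : Fin n → ℂ)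
      (F : MvPolynomial σ ℂ) (q : σ → ℂ) (Z : ℕ → RatFunc ℂ)
      (h : BecomesAt (trans p F' : MvPowerSeries (Fin n) ℂ)
        (aeval (fun i => C (q i) + X i) F : MvPolynomial σ ℂ))
      (hF : ZetaGerm σ F q Z) : ZetaGerm (Fin n) F' p Z

theorem nc_iff {V J : Type} [Fintype V] [DecidableEq V] [Fintype J] [DecidableEq J]
    (g : J → MvPolynomial V ℂ) (P : V → ℂ) :
    NormalCrossingsAt g P ↔ SNCAt' g P := by
  unfold SNCAt' NormalCrossingsAt
  have h1 : ⇑(aeval P : MvPolynomial V ℂ →ₐ[ℂ] ℂ) = ⇑(eval P) := by
    funext g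
    rw [aeval_eq_eval]
  rw [h1]

theorem HasDivisor.two_le {n : ℕ} {F : MvPolynomial (Fin n) ℂ} {ν N : ℕ}
    (H : HasDivisor F ν N) : 2 ≤ ν := by
  classical
  obtain ⟨V, _, G, J, _, w, c, g, e, m, h, hG, HD, rfl, rfl⟩ := H
  obtain ⟨v, v', h1, h2, h3⟩ := HD.two
  have h4 : w v + w v' ≤ ∑ v, w v := by
    rw [← Finset.sum_pair h1]
    exact Finset.sum_le_sum_of_subset (Finset.subset_univ _)
  omega

theorem IsWeightedDivisor.F_ne {V J : Type} [Fintype J] {F : MvPolynomial V ℂ} {w : V → ℕ} {c : ℂ}
    {g : J → MvPolynomial V ℂ} {e m : J → ℕ} {h : MvPolynomial V ℂ}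
    (HD : IsWeightedDivisor F w c g e m h) : F ≠ 0 := by
  have hg : ∀ j, g j ≠ 0 := by
    intro j h0
    obtain ⟨v, v', h1, h2, h3⟩ := HD.two
    obtain ⟨y, hy⟩ : ∃ y : V → ℂ, eval y (h * X v) ≠ 0 := by
      by_contra hcon
      push Not at hcon
      exact mul_ne_zero HD.ne (X_ne_zero v)
        (MvPolynomial.funext fun y => by rw [hcon y, map_zero])
    rw [map_mul, eval_X] at hy
    have h4 : NormalCrossingsAt g y := (HD.crossing y (left_ne_zero_of_mul hy)).mpr
      ⟨v, h2, right_ne_zero_of_mul hy⟩
    refine h4.ne_zero ⟨j, by rw [h0, map_zero]⟩ ?_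
    funext u
    simp [h0]
  intro h0
  have h1 := HD.initial
  rw [h0, map_zero] at h1
  exact mul_ne_zero (by simpa using HD.ne_zero)
    (Finset.prod_ne_zero_iff.2 fun j _ => pow_ne_zero _ (hg j)) h1.symm

/-- The exponent `-ν / N` of a weighted divisor is excluded. -/
theorem HasDivisor.contra {n : ℕ} {F : MvPolynomial (Fin n) ℂ} {ν N : ℕ}
    (H : HasDivisor F ν N) (K : MvPolynomial (Fin n) ℂ) (s : ℂ) (hK : eval 0 K ≠ 0)
    (hE : Pool.Agent.N103.V.Ev K F s) (hs : (ν : ℂ) + N * s = 0) : False := by
  classical
  obtain ⟨V, _, G, J, _, w, c, g, e, m, h, hG, HD, rfl, rfl⟩ := H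
  have hcard : 2 ≤ Fintype.card (Pos w) := by
    obtain ⟨v, v', h1, h2, h3⟩ := HD.two
    exact Fintype.one_lt_card_iff.mpr ⟨⟨v, h2⟩, ⟨v', h3⟩, fun h => h1 (congrArg Subtype.val h)⟩
  have hhom : IsWeightedHomogeneous w h 0 := by
    intro d hd
    rw [Finsupp.weight_apply, Finsupp.sum_fintype _ _ (by simp)]
    refine Finset.sum_eq_zero fun v _ => ?_
    by_cases hv : d v = 0
    · rw [hv, zero_smul]
    · rw [HD.vars v ((mem_vars_iff_mem_support v).mpr ⟨d, mem_support_iff.mpr hd,
        Finsupp.mem_support_iff.mpr hv⟩), smul_zero]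
  obtain ⟨K', hK', hE'⟩ := Pool.Agent.L0h17.WT.ev_becomes HD.F_ne hG hK hE
  refine Pool.Agent.L0h17.WT.wdiv_contra G w c g e m h hcard HD.hom HD.pos HD.ne_zero
    HD.low HD.initial HD.ne hhom (fun P hP => ?_) K' hK' s hE' hs
  rw [aeval_eq_eval] at hP
  rw [← nc_iff]
  exact HD.crossing P hP

/-- The zeta functions of the class have the properties `Good`. -/
theorem good {σ : Type} {F : MvPolynomial σ ℂ} {p : σ → ℂ} {Z : ℕ → RatFunc ℂ}
    (hZ : ZetaGerm σ F p Z) : Pool.Agent.N103.V.Good F p Z := by
  induction hZ with
  | base F p Z hF => exact Pool.Agent.N103.V.sus_good hF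
  | divisors F hF h0 ν N hE q m hq hne χ hχ =>
    exact Pool.Agent.L0h17.WT.good_divisors' hF h0 ν N (fun i => (hE i).two_le)
      (fun i H s hH hEv hs => (hE i).contra H s hH hEv hs) q m (fun j => (hq j).pos)
      (fun j => (hq j).prime) (fun j => (hq j).mult) hne χ hχ
  | susp d hd G p Z hG ih => exact Pool.Agent.N103.V.good_susp hd ih
  | pow k hk G p Z hG ih => exact Pool.Agent.N103.V.good_pow hk ih
  | prod F G p q Z Z' hF hG ihF ihG =>
    exact Pool.Agent.L0h17.WT.good_prod Pool.Agent.L0h72.WT.t_RES Pool.Agent.L0h55.WT.t_PCR ihF ihG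
  | vars i hi F q Z hF ih => exact Pool.Agent.L0h17.WT.good_rename i hi ih
  | formal F' p F q Z h hF ih => exact Pool.Agent.L0h17.WT.good_formal h ih

/-- **The twisted monodromy conjecture, in the strong form, for the class `ZetaGerm`.**

(1) Let the `f_i` be finitely many formal power series in `N` variables (for instance, the Taylor
series of a regular function `f` on a smooth variety of dimension `N` at points `p_i`), and let `b`
satisfy functional equations `b(s) f_i ^ s = P_i(s) f_i ^ (s + 1)` for all `i`, where the `P_i(s)` are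
differential operators with coefficients in the formal power series (for instance `b = b_f`). Let `f_i`
become the polynomial `F_i` in suitable formal coordinates, up to a unit (`BecomesAt`), where
`ZetaGerm (σ i) (F i) 0 (Z i)`. Then every pole of `χ0 + ∑_i χ_i Z_{i,e}`, for any integers `χ0` and
`χ_i`, is a root of `b`. In particular, the poles of the local zeta functions `Z_{i,e}` are roots of the
local Bernstein-Sato polynomials.

(2) The same for a polynomial `f` and its germs `f(p_i + x)`, if `b` satisfies a functional equation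
`b(s) f ^ s = P(s) f ^ (s + 1)`, where `P(s)` is a differential operator with polynomial
coefficients. -/
theorem result :
    (∀ {N : ℕ} {ι : Type} [Fintype ι] (f : ι → MvPowerSeries (Fin N) ℂ) (b : Polynomial ℂ)
      (_ : ∀ i, IsFormalBFunction (f i) b) (e : ℕ) (_ : 1 ≤ e) (χ : ι → ℤ) (σ : ι → Type)
      (F : ∀ i, MvPolynomial (σ i) ℂ) (_ : ∀ i, BecomesAt (f i) (F i))
      (Z : ι → ℕ → RatFunc ℂ) (_ : ∀ i, ZetaGerm (σ i) (F i) 0 (Z i)) (χ0 : ℤ) (s₀ : ℂ)
      (_ : ((χ0 : RatFunc ℂ) + ∑ i, (χ i : RatFunc ℂ) * Z i e).denom.eval s₀ = 0),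
      b.eval s₀ = 0) ∧
    (∀ {N : ℕ} {ι : Type} [Fintype ι] (f : MvPolynomial (Fin N) ℂ) (b : Polynomial ℂ)
      (_ : IsBFunction f b) (e : ℕ) (_ : 1 ≤ e) (χ : ι → ℤ) (p : ι → Fin N → ℂ) (σ : ι → Type)
      (F : ∀ i, MvPolynomial (σ i) ℂ)
      (_ : ∀ i, BecomesAt (trans (p i) f : MvPowerSeries (Fin N) ℂ) (F i))
      (Z : ι → ℕ → RatFunc ℂ) (_ : ∀ i, ZetaGerm (σ i) (F i) 0 (Z i)) (χ0 : ℤ) (s₀ : ℂ)
      (_ : ((χ0 : RatFunc ℂ) + ∑ i, (χ i : RatFunc ℂ) * Z i e).denom.eval s₀ = 0),
      b.eval s₀ = 0) := by
  have key : ∀ {N : ℕ} {ι : Type} [Fintype ι] (f : ι → MvPowerSeries (Fin N) ℂ)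
      (b : Polynomial ℂ) (_ : ∀ i, IsFormalBFunction (f i) b) (e : ℕ) (_ : 1 ≤ e) (χ : ι → ℤ)
      (σ : ι → Type) (F : ∀ i, MvPolynomial (σ i) ℂ) (_ : ∀ i, BecomesAt (f i) (F i))
      (Z : ι → ℕ → RatFunc ℂ) (_ : ∀ i, ZetaGerm (σ i) (F i) 0 (Z i)) (χ0 : ℤ) (s₀ : ℂ)
      (_ : ((χ0 : RatFunc ℂ) + ∑ i, (χ i : RatFunc ℂ) * Z i e).denom.eval s₀ = 0),
      b.eval s₀ = 0 := by
    intro N ι _ f b hb e he χ σ F hF Z hZ χ0 s₀ hs₀
    by_contra hne
    refine Pool.Agent.W574.SM.Reg_denom s₀ _ ?_ hs₀
    refine (Pool.Agent.W574.SM.Reg s₀).add_mem (intCast_mem _ _)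
      (Subring.sum_mem _ fun i _ => ?_)
    exact (Pool.Agent.W574.SM.Reg s₀).mul_mem (intCast_mem _ _)
      (Pool.Agent.L0h17.WT.reg_of_good (good (hZ i)) (hF i) (hb i) he hne)
  refine ⟨key, ?_⟩
  intro N ι _ f b hb e he χ p σ F hF Z hZ χ0 s₀ hs₀
  exact key (fun i => (trans (p i) f : MvPowerSeries (Fin N) ℂ)) b
    (fun i => Pool.Agent.Y229.PS.formal_of_local (Pool.Agent.Y229.RE.trans_local (p i) hb)) e he χ
    σ F hF Z hZ χ0 s₀ hs₀

end Pool.Agent.Results.MP_b22d1f_ag.WeightedDivisorGerms
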